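import Pool.Agent.K4H72.Til.Spec

open Set

namespace Pool.Agent.K4H72.Til

theorem r6_E_re (v : ℤ × ℤ) : (E v).re = v.1 + v.2 / 2 := by
  simp [E, ζ]
  ring

theorem r6_E_im (v : ℤ × ℤ) : (E v).im = v.2 * (Real.sqrt 3 / 2) := by
  simp [E, ζ]

theorem r6_norm_sq (z : ℂ) : ‖z‖ ^ 2 = z.re ^ 2 + z.im ^ 2 := by
  rw [← Complex.normSq_eq_norm_sq, Complex.normSq_apply]
  ring

theorem r6_norm_six (e : ℤ × ℤ) (he : e ∈ six) : ‖E e‖ = 1 := by
  have h3 : Real.sqrt 3 ^ 2 = 3 := Real.sq_sqrt (by norm_num)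
  have h : ‖E e‖ ^ 2 = 1 := by
    rw [r6_norm_sq, r6_E_re, r6_E_im]
    simp only [six, Finset.mem_insert, Finset.mem_singleton] at he
    rcases he with rfl | rfl | rfl | rfl | rfl | rfl <;> push_cast <;> nlinarith
  have h0 := norm_nonneg (E e)
  nlinarith

theorem r6_dir (h : ℝ) (g : ℤ × ℤ → ℂ) (hg : Def1 h g) (v : ℤ × ℤ) (z : ℂ) (e : ℤ × ℤ)
    (he : e ∈ six) (hz : ‖z - g v‖ ≤ ‖z - g (v + e)‖) :
    2 * ((z - g v).re * (E e).re + (z - g v).im * (E e).im) ≤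
      441 / 400 * h + ‖z - g v‖ / 10 := by
  have hh := hg.1
  have h1 := hg.2 (v + e) v
  rw [add_sub_cancel_left, r6_norm_six e he, mul_one] at h1
  set w := z - g v with hw
  set d := g (v + e) - g v - (h : ℂ) * E e with hd
  have e1 : z - g (v + e) = w - ((h : ℂ) * E e + d) := by
    rw [hw, hd]
    ring
  rw [e1] at hz
  have h2 : ‖w‖ ^ 2 ≤ ‖w - ((h : ℂ) * E e + d)‖ ^ 2 :=
    pow_le_pow_left₀ (norm_nonneg _) hz 2
  have h3 : ‖w - ((h : ℂ) * E e + d)‖ ^ 2 = ‖w‖ ^ 2 + ‖(h : ℂ) * E e + d‖ ^ 2 -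
      2 * (h * (w.re * (E e).re + w.im * (E e).im) + (w.re * d.re + w.im * d.im)) := by
    simp only [r6_norm_sq, Complex.sub_re, Complex.sub_im, Complex.add_re, Complex.add_im,
      Complex.re_ofReal_mul, Complex.im_ofReal_mul]
    ring
  have h4 : ‖(h : ℂ) * E e + d‖ ≤ h * (21 / 20) := by
    calc ‖(h : ℂ) * E e + d‖ ≤ ‖(h : ℂ) * E e‖ + ‖d‖ := norm_add_le _ _
      _ ≤ h + 1 / 20 * h := by
        rw [norm_mul, r6_norm_six e he, mul_one, Complex.norm_real, Real.norm_eq_abs,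
          abs_of_pos hh]
        linarith
      _ = h * (21 / 20) := by ring
  have h5 : ‖(h : ℂ) * E e + d‖ ^ 2 ≤ (h * (21 / 20)) ^ 2 :=
    pow_le_pow_left₀ (norm_nonneg _) h4 2
  have h6 : -(‖w‖ * ‖d‖) ≤ w.re * d.re + w.im * d.im := by
    have a : ((starRingEnd ℂ w) * d).re = w.re * d.re + w.im * d.im := by
      simp [Complex.mul_re]
    have b := (abs_le.1 (Complex.abs_re_le_norm ((starRingEnd ℂ w) * d))).1
    rw [norm_mul, Complex.norm_conj, a] at b
    exact b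
  have h7 : ‖w‖ * ‖d‖ ≤ ‖w‖ * (1 / 20 * h) := mul_le_mul_of_nonneg_left h1 (norm_nonneg _)
  have h8 : h * (2 * (w.re * (E e).re + w.im * (E e).im)) ≤
      h * (441 / 400 * h + ‖w‖ / 10) := by
    rw [h3] at h2
    nlinarith
  exact le_of_mul_le_mul_left h8 hh

theorem r6_quad (A p q : ℝ) (h1 : p ≤ A) (h2 : -A ≤ p) (h3 : q ≤ A) (h4 : -A ≤ q)
    (h5 : p + q ≤ A) (h6 : -A ≤ p + q) : p ^ 2 + p * q + q ^ 2 ≤ A ^ 2 := by
  have a1 : p ^ 2 ≤ A ^ 2 := by nlinarith
  have a2 : q ^ 2 ≤ A ^ 2 := by nlinarith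
  have a3 : (p + q) ^ 2 ≤ A ^ 2 := by nlinarith
  by_cases hq0 : q = 0
  · rw [hq0]
    nlinarith
  rcases le_total 0 (p * q) with h | h
  · nlinarith
  · rcases le_total 0 (q * (p + q)) with h' | h'
    · have : p * (p + q) ≤ 0 := by
        by_contra hc
        push Not at hc
        have := mul_nonneg h' hc.le
        have h9 : q * (p + q) * (p * (p + q)) = (p * q) * (p + q) ^ 2 := by ring
        rw [h9] at this
        have h10 : (p * q) * (p + q) ^ 2 ≤ 0 := mul_nonpos_of_nonpos_of_nonneg h (sq_nonneg _)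
        have h11 : (p * q) * (p + q) ^ 2 = 0 := le_antisymm h10 this
        rcases mul_eq_zero.1 h11 with h12 | h12
        · rcases mul_eq_zero.1 h12 with h13 | h13
          · rw [h13] at hc
            simp at hc
          · exact absurd h13 hq0
        · have h14 : p + q = 0 := by
            exact pow_eq_zero_iff (two_ne_zero) |>.1 h12
          rw [h14] at hc
          simp at hc
      nlinarith
    · nlinarith

/-- T6 -/
theorem radius (h : ℝ) (g : ℤ × ℤ → ℂ) (hg : Def1 h g) (v : ℤ × ℤ) (z : ℂ)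
    (hz : ∀ e ∈ six, ‖z - g v‖ ≤ ‖z - g (v + e)‖) : ‖z - g v‖ ≤ 7 / 10 * h := by
  have hh := hg.1
  have k := fun e (he : e ∈ six) => r6_dir h g hg v z e he (hz e he)
  have k1 := k (1, 0) (by decide)
  have k2 := k (-1, 0) (by decide)
  have k3 := k (0, 1) (by decide)
  have k4 := k (0, -1) (by decide)
  have k5 := k (1, -1) (by decide)
  have k6 := k (-1, 1) (by decide)
  rw [r6_E_re, r6_E_im] at k1 k2 k3 k4 k5 k6
  push_cast at k1 k2 k3 k4 k5 k6
  have hn := r6_norm_sq (z - g v)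
  have h0 := norm_nonneg (z - g v)
  set x := (z - g v).re
  set y := (z - g v).im
  set n := ‖z - g v‖
  have h3 : Real.sqrt 3 ^ 2 = 3 := Real.sq_sqrt (by norm_num)
  set c := Real.sqrt 3
  have hq := r6_quad (441 / 400 * h + n / 10) (x + c * y) (x - c * y) (by linarith) (by linarith)
    (by linarith) (by linarith) (by linarith) (by linarith)
  have h5 : (x + c * y) ^ 2 + (x + c * y) * (x - c * y) + (x - c * y) ^ 2 = 3 * n ^ 2 := by
    rw [hn]
    have : (x + c * y) ^ 2 + (x + c * y) * (x - c * y) + (x - c * y) ^ 2 =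
      3 * x ^ 2 + c ^ 2 * y ^ 2 := by ring
    rw [this, h3]
    ring
  rw [h5] at hq
  by_contra hc
  push Not at hc
  have h6 : 441 / 400 * h + n / 10 ≤ 67 / 40 * n := by linarith
  have h7 : (441 / 400 * h + n / 10) ^ 2 ≤ (67 / 40 * n) ^ 2 :=
    pow_le_pow_left₀ (by positivity) h6 2
  have h8 : 0 < n := by linarith
  nlinarith [mul_pos h8 h8]

end Pool.Agent.K4H72.Til
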